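import Pool.Agent.H15.FamDefs

/-!
A long walk of signed vectors with one and the same support (MP_19149c_co, module Path of helper81's plan).
-/

set_option linter.unusedSectionVars false

open Module Submodule

namespace H31.WKP

variable {ι : Type*} [Fintype ι] [DecidableEq ι]

/-- positive part of `x + t y`. -/
noncomputable def PP (x y : ι → ℝ) (t : ℝ) : Finset ι := Finset.univ.filter fun i => 0 < x i + t * y i

/-- negative part of `x + t y`. -/
noncomputable def NN (x y : ι → ℝ) (t : ℝ) : Finset ι := Finset.univ.filter fun i => x i + t * y i < 0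

/-- elements whose sign is different at `s` and `t`. -/
noncomputable def DD (x y : ι → ℝ) (s t : ℝ) : Finset ι :=
  (PP x y s ∩ NN x y t) ∪ (NN x y s ∩ PP x y t)

/-- `t` is not a time of crossing. -/
def NC (x y : ι → ℝ) (K : Finset ι) (t : ℝ) : Prop := ∀ i ∈ K, x i + t * y i ≠ 0

variable {x y : ι → ℝ} {K C : Finset ι}

theorem mem_PP {t : ℝ} {i : ι} : i ∈ PP x y t ↔ 0 < x i + t * y i := by simp [PP]

theorem mem_NN {t : ℝ} {i : ι} : i ∈ NN x y t ↔ x i + t * y i < 0 := by simp [NN]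

theorem mem_DD {s t : ℝ} {i : ι} : i ∈ DD x y s t ↔
    (0 < x i + s * y i ∧ x i + t * y i < 0) ∨ (x i + s * y i < 0 ∧ 0 < x i + t * y i) := by
  simp [DD, mem_PP, mem_NN]

theorem disj_PN (t : ℝ) : Disjoint (PP x y t) (NN x y t) := by
  rw [Finset.disjoint_left]
  intro i h1 h2
  rw [mem_PP] at h1
  rw [mem_NN] at h2
  linarith

theorem card_DD (s t : ℝ) : (DD x y s t).card =
    (PP x y s ∩ NN x y t).card + (NN x y s ∩ PP x y t).card := by
  unfold DD
  apply Finset.card_union_of_disjoint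
  rw [Finset.disjoint_left]
  intro i h1 h2
  rw [Finset.mem_inter, mem_PP, mem_NN] at h1
  rw [Finset.mem_inter, mem_PP, mem_NN] at h2
  linarith [h1.1, h2.1]

theorem svec_pn {E : Type*} [AddCommGroup E] [Module ℝ E] (w : ι → E)
    (hx : ∑ i, x i • w i = 0) (hy : ∑ i, y i • w i = 0) (t : ℝ) :
    H15.SVec w (PP x y t : Set ι) (NN x y t : Set ι) := by
  refine ⟨fun i => x i + t * y i, ?_, ?_, ?_⟩
  · simp only [add_smul, Finset.sum_add_distrib, hx, mul_smul, ← Finset.smul_sum, hy]
    simp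
  · intro i; rw [Finset.mem_coe, mem_PP]
  · intro i; rw [Finset.mem_coe, mem_NN]

theorem union_pn (hC : ∀ i, i ∈ C ↔ (x i ≠ 0 ∨ y i ≠ 0)) (hK : ∀ i, i ∈ K ↔ y i ≠ 0) {t : ℝ}
    (ht : NC x y K t) : PP x y t ∪ NN x y t = C := by
  ext i
  rw [Finset.mem_union, mem_PP, mem_NN, hC]
  constructor
  · intro h
    by_contra hcon
    push Not at hcon
    rw [hcon.1, hcon.2] at h
    simp at h
  · intro h
    have hne : x i + t * y i ≠ 0 := by
      by_cases hy : y i = 0
      · rw [hy]; simp only [mul_zero, add_zero]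
        rcases h with h | h
        · exact h
        · exact absurd hy h
      · exact ht i ((hK i).2 hy)
    rcases lt_or_gt_of_ne hne with h | h
    · exact Or.inr h
    · exact Or.inl h

theorem DD_sub (hK : ∀ i, i ∈ K ↔ y i ≠ 0) (s t : ℝ) : DD x y s t ⊆ K := by
  intro i hi
  rw [mem_DD] at hi
  rw [hK]
  intro h0
  rw [h0] at hi
  simp only [mul_zero, add_zero] at hi
  rcases hi with h | h <;> linarith [h.1, h.2]

/-- triangle inequality for the crossed sets. -/
theorem DD_tri (hK : ∀ i, i ∈ K ↔ y i ≠ 0) {a b c : ℝ} (hb : NC x y K b) :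
    (DD x y a c).card ≤ (DD x y a b).card + (DD x y b c).card := by
  refine le_trans (Finset.card_le_card ?_) (Finset.card_union_le _ _)
  intro i hi
  have hiK := DD_sub hK a c hi
  have hbi := hb i hiK
  rw [Finset.mem_union, mem_DD, mem_DD]
  rw [mem_DD] at hi
  rcases lt_or_gt_of_ne hbi with h | h
  · rcases hi with ⟨h1, h2⟩ | ⟨h1, h2⟩
    · exact Or.inl (Or.inl ⟨h1, h⟩)
    · exact Or.inr (Or.inr ⟨h, h2⟩)
  · rcases hi with ⟨h1, h2⟩ | ⟨h1, h2⟩
    · exact Or.inr (Or.inl ⟨h, h2⟩)
    · exact Or.inl (Or.inr ⟨h1, h⟩)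

theorem PP_diff (hK : ∀ i, i ∈ K ↔ y i ≠ 0) {s t : ℝ} (hs : NC x y K s) :
    PP x y t \ PP x y s ⊆ DD x y s t := by
  intro i hi
  rw [Finset.mem_sdiff, mem_PP, mem_PP] at hi
  rw [mem_DD]
  have hne : x i + s * y i ≠ 0 := by
    by_cases hy : y i = 0
    · rw [hy] at hi ⊢
      simp only [mul_zero, add_zero] at hi
      exact absurd hi.1 hi.2
    · exact hs i ((hK i).2 hy)
  exact Or.inr ⟨lt_of_le_of_ne (not_lt.1 hi.2) hne, hi.1⟩

theorem NN_diff (hK : ∀ i, i ∈ K ↔ y i ≠ 0) {s t : ℝ} (hs : NC x y K s) :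
    NN x y t \ NN x y s ⊆ DD x y s t := by
  intro i hi
  rw [Finset.mem_sdiff, mem_NN, mem_NN] at hi
  rw [mem_DD]
  have hne : x i + s * y i ≠ 0 := by
    by_cases hy : y i = 0
    · rw [hy] at hi ⊢
      simp only [mul_zero, add_zero] at hi
      exact absurd hi.1 hi.2
    · exact hs i ((hK i).2 hy)
  exact Or.inl ⟨lt_of_le_of_ne (not_lt.1 hi.2) (Ne.symm hne), hi.1⟩

theorem DD_comm (s t : ℝ) : DD x y s t = DD x y t s := by
  ext i
  rw [mem_DD, mem_DD]
  tauto

theorem PP_card {s t : ℝ} (hK : ∀ i, i ∈ K ↔ y i ≠ 0) (ht : NC x y K t) :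
    (PP x y s ∩ K).card ≤ (PP x y t ∩ K).card + (DD x y s t).card := by
  refine le_trans (Finset.card_le_card ?_) (Finset.card_union_le _ _)
  intro i hi
  rw [Finset.mem_inter] at hi
  rw [Finset.mem_union, Finset.mem_inter, DD_comm]
  by_cases h : i ∈ PP x y t
  · exact Or.inl ⟨h, hi.2⟩
  · exact Or.inr (PP_diff hK ht (Finset.mem_sdiff.2 ⟨hi.1, h⟩))

theorem NN_card {s t : ℝ} (hK : ∀ i, i ∈ K ↔ y i ≠ 0) (ht : NC x y K t) :
    (NN x y s ∩ K).card ≤ (NN x y t ∩ K).card + (DD x y s t).card := by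
  refine le_trans (Finset.card_le_card ?_) (Finset.card_union_le _ _)
  intro i hi
  rw [Finset.mem_inter] at hi
  rw [Finset.mem_union, Finset.mem_inter, DD_comm]
  by_cases h : i ∈ NN x y t
  · exact Or.inl ⟨h, hi.2⟩
  · exact Or.inr (NN_diff hK ht (Finset.mem_sdiff.2 ⟨hi.1, h⟩))

theorem PN_card {t : ℝ} (ht : NC x y K t) :
    (PP x y t ∩ K).card + (NN x y t ∩ K).card = K.card := by
  rw [← Finset.card_union_of_disjoint]
  · congr 1
    ext i
    rw [Finset.mem_union, Finset.mem_inter, Finset.mem_inter, mem_PP, mem_NN]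
    constructor
    · rintro (h | h) <;> exact h.2
    · intro h
      rcases lt_or_gt_of_ne (ht i h) with h' | h'
      · exact Or.inr ⟨h', h⟩
      · exact Or.inl ⟨h', h⟩
  · exact Finset.disjoint_of_subset_left Finset.inter_subset_left
      (Finset.disjoint_of_subset_right Finset.inter_subset_left (disj_PN t))

/-- the core: a sequence of times which starts near the middle. -/
theorem core {E : Type*} [AddCommGroup E] [Module ℝ E] (w : ι → E)
    (hx : ∑ i, x i • w i = 0) (hy : ∑ i, y i • w i = 0)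
    (hC : ∀ i, i ∈ C ↔ (x i ≠ 0 ∨ y i ≠ 0)) (hK : ∀ i, i ∈ K ↔ y i ≠ 0) {W m M : ℕ}
    (hbig : 2 * M + 2 * m + 4 * W + 2 ≤ K.card) (u : ℕ → ℝ) (hu : ∀ l, NC x y K (u l))
    (hstep : ∀ l, (DD x y (u l) (u (l+1))).card ≤ W)
    (hmid1 : K.card ≤ 2 * (PP x y (u 0) ∩ K).card + 2 * W)
    (hmid2 : K.card ≤ 2 * (NN x y (u 0) ∩ K).card + 2 * W)
    (hfar : ∃ L, m ≤ (DD x y (u 0) (u L)).card) :
    ∃ (L : ℕ) (P N : ℕ → Finset ι),
      (∀ l ≤ L, H15.SVec w (P l : Set ι) (N l : Set ι) ∧ Disjoint (P l) (N l) ∧ P l ∪ N l = C ∧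
        M ≤ (P l ∩ K).card ∧ M ≤ (N l ∩ K).card ∧
        (∀ i, i ∉ K → ((i ∈ P l ↔ 0 < x i) ∧ (i ∈ N l ↔ x i < 0)))) ∧
      (∀ l < L, (P (l+1) \ P l).card ≤ W ∧ (N (l+1) \ N l).card ≤ W) ∧
      m ≤ (P 0 ∩ N L).card + (N 0 ∩ P L).card := by
  classical
  have hmin := Nat.find_spec hfar
  have hlt : ∀ l < Nat.find hfar, (DD x y (u 0) (u l)).card < m := by
    intro l hl
    exact not_le.1 (Nat.find_min hfar hl)
  set L := Nat.find hfar with hL
  have hle : ∀ l ≤ L, (DD x y (u 0) (u l)).card ≤ m + W := by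
    intro l hl
    rcases Nat.lt_or_eq_of_le hl with h | h
    · exact (hlt l h).le.trans (Nat.le_add_right _ _)
    · rcases Nat.eq_zero_or_pos l with h0 | h0
      · have h00 : DD x y (u 0) (u 0) = ∅ := by
          apply Finset.eq_empty_of_forall_notMem
          intro i hi
          rw [mem_DD] at hi
          rcases hi with ⟨h1, h2⟩ | ⟨h1, h2⟩ <;> linarith
        rw [h0, h00]
        simp
      · obtain ⟨l', rfl⟩ : ∃ l', l = l' + 1 := ⟨l - 1, by omega⟩
        have h1 := hlt l' (by omega)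
        have h2 := hstep l'
        have h3 := DD_tri (x := x) (y := y) (a := u 0) (c := u (l'+1)) hK (hu l')
        omega
  refine ⟨L, fun l => PP x y (u l), fun l => NN x y (u l), ?_, ?_, ?_⟩
  · intro l hl
    have h1 := hle l hl
    have h2 := PP_card (x := x) (y := y) (s := u 0) hK (hu l)
    have h3 := NN_card (x := x) (y := y) (s := u 0) hK (hu l)
    have h4 : M ≤ (PP x y (u l) ∩ K).card := by omega
    have h5 : M ≤ (NN x y (u l) ∩ K).card := by omega
    refine ⟨svec_pn w hx hy _, disj_PN _, union_pn hC hK (hu l), h4, h5, ?_⟩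
    intro i hi
    have h0 : y i = 0 := by
      by_contra h
      exact hi ((hK i).2 h)
    rw [mem_PP, mem_NN, h0]
    simp
  · intro l _
    exact ⟨(Finset.card_le_card (PP_diff hK (hu l))).trans (hstep l),
      (Finset.card_le_card (NN_diff hK (hu l))).trans (hstep l)⟩
  · rw [← card_DD]
    exact hmin

/-- elements crossed before `t`. -/
noncomputable def AA (x y : ι → ℝ) (K : Finset ι) (t : ℝ) : Finset ι :=
  K.filter fun i => - x i / y i < t

theorem sign_pos (hK : ∀ i, i ∈ K ↔ y i ≠ 0) {i : ι} (hi : i ∈ K) (t : ℝ) :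
    x i + t * y i = y i * (t - (- x i / y i)) := by
  have := (hK i).1 hi
  field_simp
  ring

theorem AA_mono {s t : ℝ} (h : s ≤ t) : AA x y K s ⊆ AA x y K t := by
  intro i hi
  unfold AA at *
  rw [Finset.mem_filter] at *
  exact ⟨hi.1, lt_of_lt_of_le hi.2 h⟩

/-- the crossed set is the difference of the `AA`. -/
theorem DD_eq (hK : ∀ i, i ∈ K ↔ y i ≠ 0) {s t : ℝ} (hst : s ≤ t) (ht : NC x y K t)
    (hs : NC x y K s) : DD x y s t = AA x y K t \ AA x y K s := by
  ext i
  rw [Finset.mem_sdiff]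
  unfold AA
  rw [Finset.mem_filter, Finset.mem_filter]
  constructor
  · intro hi
    have hiK := DD_sub hK s t hi
    rw [mem_DD, sign_pos hK hiK, sign_pos hK hiK] at hi
    have hy := (hK i).1 hiK
    have key : s < - x i / y i ∧ - x i / y i < t := by
      rcases lt_or_gt_of_ne hy with hneg | hpos
      · rcases hi with ⟨h1, h2⟩ | ⟨h1, h2⟩
        · constructor
          · nlinarith
          · nlinarith
        · exfalso
          have a1 : 0 < s - - x i / y i := by
            by_contra hcon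
            push Not at hcon
            nlinarith [mul_nonneg_of_nonpos_of_nonpos hneg.le hcon]
          have a2 : t - - x i / y i < 0 := by
            by_contra hcon
            push Not at hcon
            nlinarith [mul_nonpos_of_nonpos_of_nonneg hneg.le hcon]
          linarith
      · rcases hi with ⟨h1, h2⟩ | ⟨h1, h2⟩
        · exfalso
          have a1 : 0 < s - - x i / y i := by
            by_contra hcon
            push Not at hcon
            nlinarith [mul_nonpos_of_nonneg_of_nonpos hpos.le hcon]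
          have a2 : t - - x i / y i < 0 := by
            by_contra hcon
            push Not at hcon
            nlinarith [mul_nonneg hpos.le hcon]
          linarith
        · constructor
          · nlinarith
          · nlinarith
    exact ⟨⟨hiK, key.2⟩, fun h => by linarith [h.2, key.1]⟩
  · rintro ⟨⟨hiK, h1⟩, h2⟩
    have hy := (hK i).1 hiK
    have hns : s < - x i / y i := by
      have h3 : ¬ (- x i / y i < s) := fun h => h2 ⟨hiK, h⟩
      rcases lt_or_eq_of_le (not_lt.1 h3) with h4 | h4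
      · exact h4
      · exfalso
        apply hs i hiK
        rw [sign_pos hK hiK, h4]
        ring
    rw [mem_DD, sign_pos hK hiK, sign_pos hK hiK]
    rcases lt_or_gt_of_ne hy with hneg | hpos
    · left
      exact ⟨mul_pos_of_neg_of_neg hneg (by linarith), mul_neg_of_neg_of_pos hneg (by linarith)⟩
    · right
      exact ⟨mul_neg_of_pos_of_neg hpos (by linarith), mul_pos hpos (by linarith)⟩

theorem AA_card {s t : ℝ} (hK : ∀ i, i ∈ K ↔ y i ≠ 0) (hst : s ≤ t) (ht : NC x y K t)
    (hs : NC x y K s) : (DD x y s t).card + (AA x y K s).card = (AA x y K t).card := by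
  rw [DD_eq hK hst ht hs]
  exact Finset.card_sdiff_add_card_eq_card (AA_mono hst)

/-- the next time. -/
theorem next (hK : ∀ i, i ∈ K ↔ y i ≠ 0) {W : ℕ}
    (hW : ∀ t : ℝ, (K.filter fun i => x i + t * y i = 0).card ≤ W) (s : ℝ) (hs : NC x y K s) :
    ∃ t, s ≤ t ∧ NC x y K t ∧ (DD x y s t).card ≤ W ∧
      (AA x y K s ≠ K → (AA x y K s).card < (AA x y K t).card) := by
  classical
  by_cases hA : AA x y K s = K
  · refine ⟨s, le_rfl, hs, ?_, fun h => absurd hA h⟩
    have h00 : DD x y s s = ∅ := by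
      rw [DD_eq hK le_rfl hs hs, Finset.sdiff_self]
    rw [h00]; simp
  set T : Finset ℝ := (K.filter fun i => s ≤ - x i / y i).image fun i => - x i / y i with hT
  have hTne : T.Nonempty := by
    rw [hT, Finset.image_nonempty]
    by_contra hcon
    rw [Finset.not_nonempty_iff_eq_empty] at hcon
    apply hA
    ext i
    unfold AA
    rw [Finset.mem_filter]
    constructor
    · exact fun h => h.1
    · intro h
      refine ⟨h, ?_⟩
      by_contra h2
      have : i ∈ K.filter fun i => s ≤ - x i / y i := Finset.mem_filter.2 ⟨h, not_lt.1 h2⟩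
      rw [hcon] at this
      exact Finset.notMem_empty _ this
  set v := T.min' hTne with hv
  have hvT : v ∈ T := Finset.min'_mem T hTne
  obtain ⟨i0, hi0, hi0v⟩ := Finset.mem_image.1 hvT
  rw [Finset.mem_filter] at hi0
  have hsv : s < v := by
    rcases lt_or_eq_of_le (hi0v ▸ hi0.2 : s ≤ v) with h | h
    · exact h
    · exfalso
      apply hs i0 hi0.1
      rw [sign_pos hK hi0.1, h, ← hi0v]
      ring
  obtain ⟨t, hvt, hbetween⟩ : ∃ t, v < t ∧ ∀ i ∈ K, v < - x i / y i → t < - x i / y i := by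
    set U : Finset ℝ := (K.filter fun i => v < - x i / y i).image fun i => - x i / y i with hU
    by_cases hUne : U.Nonempty
    · refine ⟨(v + U.min' hUne) / 2, ?_, ?_⟩
      · obtain ⟨i1, hi1, hi1v⟩ := Finset.mem_image.1 (Finset.min'_mem U hUne)
        rw [Finset.mem_filter] at hi1
        have : v < U.min' hUne := by rw [← hi1v]; exact hi1.2
        linarith
      · intro i hi hvi
        have h1 : U.min' hUne ≤ - x i / y i :=
          Finset.min'_le U _ (Finset.mem_image.2 ⟨i, Finset.mem_filter.2 ⟨hi, hvi⟩, rfl⟩)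
        linarith
    · refine ⟨v + 1, by linarith, ?_⟩
      intro i hi hvi
      exfalso
      apply hUne
      exact ⟨_, Finset.mem_image.2 ⟨i, Finset.mem_filter.2 ⟨hi, hvi⟩, rfl⟩⟩
  have hlow : ∀ i ∈ K, s ≤ - x i / y i → v ≤ - x i / y i := by
    intro i hi h
    exact Finset.min'_le T _ (Finset.mem_image.2 ⟨i, Finset.mem_filter.2 ⟨hi, h⟩, rfl⟩)
  have ht : NC x y K t := by
    intro i hi h0
    rw [sign_pos hK hi] at h0
    have h1 : t = - x i / y i := by
      rcases mul_eq_zero.1 h0 with h | h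
      · exact absurd h ((hK i).1 hi)
      · linarith
    have h2 := hbetween i hi (by rw [← h1]; exact hvt)
    linarith
  refine ⟨t, (hsv.trans hvt).le, ht, ?_, ?_⟩
  · refine le_trans (Finset.card_le_card ?_) (hW v)
    rw [DD_eq hK (hsv.trans hvt).le ht hs]
    intro i hi
    unfold AA at hi
    rw [Finset.mem_sdiff, Finset.mem_filter, Finset.mem_filter] at hi
    obtain ⟨⟨h1, h2⟩, h3⟩ := hi
    have h4 : s ≤ - x i / y i := not_lt.1 fun h => h3 ⟨h1, h⟩
    have h5 := hlow i h1 h4
    have h6 : - x i / y i = v := by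
      rcases lt_or_eq_of_le h5 with h | h
      · have := hbetween i h1 h
        linarith
      · exact h.symm
    rw [Finset.mem_filter]
    refine ⟨h1, ?_⟩
    rw [sign_pos hK h1, h6]
    ring
  · intro _
    apply Finset.card_lt_card
    rw [Finset.ssubset_iff_of_subset (AA_mono (hsv.trans hvt).le)]
    refine ⟨i0, ?_, ?_⟩
    · unfold AA
      rw [Finset.mem_filter, hi0v]
      exact ⟨hi0.1, hvt⟩
    · unfold AA
      rw [Finset.mem_filter, hi0v]
      exact fun h => by linarith [h.2]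

/-- a time before everything. -/
theorem first (hK : ∀ i, i ∈ K ↔ y i ≠ 0) : ∃ s, NC x y K s ∧ AA x y K s = ∅ := by
  classical
  obtain ⟨s, hs⟩ : ∃ s : ℝ, ∀ i ∈ K, s < - x i / y i := by
    by_cases hne : (K.image fun i => - x i / y i).Nonempty
    · refine ⟨(K.image fun i => - x i / y i).min' hne - 1, fun i hi => ?_⟩
      have := Finset.min'_le (K.image fun i => - x i / y i) _ (Finset.mem_image_of_mem _ hi)
      linarith
    · refine ⟨0, fun i hi => ?_⟩
      exact absurd ⟨_, Finset.mem_image_of_mem _ hi⟩ hne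
  refine ⟨s, ?_, ?_⟩
  · intro i hi h0
    rw [sign_pos hK hi] at h0
    rcases mul_eq_zero.1 h0 with h | h
    · exact absurd h ((hK i).1 hi)
    · linarith [hs i hi]
  · unfold AA
    apply Finset.filter_eq_empty_iff.2
    intro i hi h
    linarith [hs i hi]

/-- the whole sequence of times. -/
theorem times (hK : ∀ i, i ∈ K ↔ y i ≠ 0) {W : ℕ}
    (hW : ∀ t : ℝ, (K.filter fun i => x i + t * y i = 0).card ≤ W) :
    ∃ s : ℕ → ℝ, (∀ n, NC x y K (s n)) ∧ (∀ n, s n ≤ s (n+1)) ∧
      (∀ n, (DD x y (s n) (s (n+1))).card ≤ W) ∧ AA x y K (s 0) = ∅ ∧ AA x y K (s K.card) = K := by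
  classical
  obtain ⟨s0, h0, h0'⟩ := first (x := x) (y := y) hK
  choose! f hf1 hf2 hf3 hf4 using fun (s : ℝ) (hs : NC x y K s) => next hK hW s hs
  set s : ℕ → ℝ := fun n => f^[n] s0 with hsdef
  have hsucc : ∀ n, s (n+1) = f (s n) := by
    intro n
    simp only [hsdef]
    rw [Function.iterate_succ_apply']
  have hNC : ∀ n, NC x y K (s n) := by
    intro n
    induction n with
    | zero => exact h0
    | succ n ih => rw [hsucc]; exact hf2 _ ih
  refine ⟨s, hNC, ?_, ?_, h0', ?_⟩
  · intro n; rw [hsucc]; exact hf1 _ (hNC n)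
  · intro n; rw [hsucc]; exact hf3 _ (hNC n)
  · have hgrow : ∀ n, min n K.card ≤ (AA x y K (s n)).card := by
      intro n
      induction n with
      | zero => simp
      | succ n ih =>
        by_cases hA : AA x y K (s n) = K
        · have h1 : AA x y K (s n) ⊆ AA x y K (s (n+1)) := by
            rw [hsucc]; exact AA_mono (hf1 _ (hNC n))
          have h2 := Finset.card_le_card h1
          rw [hA] at h2
          exact (min_le_right _ _).trans h2
        · have h1 := hf4 _ (hNC n) hA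
          rw [← hsucc] at h1
          omega
    have h1 := hgrow K.card
    rw [min_self] at h1
    exact Finset.eq_of_subset_of_card_le (Finset.filter_subset _ _) h1

theorem start_cards (hK : ∀ i, i ∈ K ↔ y i ≠ 0) {a b : ℝ} (ha : NC x y K a) (hb : NC x y K b)
    (hA : AA x y K a = ∅) (hB : AA x y K b = K) (hab : a ≤ b) :
    (NN x y a ∩ K).card + (NN x y b ∩ K).card = K.card := by
  have hD : DD x y a b = K := by
    rw [DD_eq hK hab hb ha, hA, hB, Finset.sdiff_empty]
  have h1 : NN x y b ∩ K = PP x y a ∩ K := by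
    ext i
    rw [Finset.mem_inter, Finset.mem_inter, mem_NN, mem_PP]
    constructor
    · rintro ⟨h, hi⟩
      refine ⟨?_, hi⟩
      have h3 : i ∈ DD x y a b := by rw [hD]; exact hi
      rw [mem_DD] at h3
      rcases h3 with h3 | h3
      · exact h3.1
      · linarith [h3.2]
    · rintro ⟨h, hi⟩
      refine ⟨?_, hi⟩
      have h3 : i ∈ DD x y a b := by rw [hD]; exact hi
      rw [mem_DD] at h3
      rcases h3 with h3 | h3
      · exact h3.2
      · linarith [h3.1]
  rw [h1, add_comm]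
  exact PN_card ha

/-- discrete intermediate value theorem. -/
theorem divt (c : ℕ → ℕ) (W κ R : ℕ) (h1 : ∀ n, c (n+1) ≤ c n + W) (h2 : ∀ n, c n ≤ c (n+1) + W)
    (h0 : c 0 + c R = κ) : ∃ n ≤ R, κ ≤ 2 * c n + 2 * W ∧ 2 * c n ≤ κ + 2 * W := by
  classical
  by_cases hc : 2 * c 0 ≤ κ
  · have hex : ∃ n, κ ≤ 2 * c n := ⟨R, by omega⟩
    have hs := Nat.find_spec hex
    have hle : Nat.find hex ≤ R := Nat.find_min' hex (by omega)
    refine ⟨Nat.find hex, hle, by omega, ?_⟩
    rcases Nat.eq_zero_or_pos (Nat.find hex) with h | h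
    · rw [h]; omega
    · have h3 := Nat.find_min hex (m := Nat.find hex - 1) (by omega)
      have h4 := h1 (Nat.find hex - 1)
      rw [Nat.sub_add_cancel h] at h4
      omega
  · have hex : ∃ n, 2 * c n ≤ κ := ⟨R, by omega⟩
    have hs := Nat.find_spec hex
    have hle : Nat.find hex ≤ R := Nat.find_min' hex (by omega)
    refine ⟨Nat.find hex, hle, ?_, by omega⟩
    rcases Nat.eq_zero_or_pos (Nat.find hex) with h | h
    · rw [h]; omega
    · have h3 := Nat.find_min hex (m := Nat.find hex - 1) (by omega)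
      have h4 := h2 (Nat.find hex - 1)
      rw [Nat.sub_add_cancel h] at h4
      omega

/-- MAIN THEOREM of the file: a long walk of chambers. -/
theorem path {E : Type*} [AddCommGroup E] [Module ℝ E] (w : ι → E) (x y : ι → ℝ)
    (hx : ∑ i, x i • w i = 0) (hy : ∑ i, y i • w i = 0) (C K : Finset ι)
    (hC : ∀ i, i ∈ C ↔ (x i ≠ 0 ∨ y i ≠ 0)) (hK : ∀ i, i ∈ K ↔ y i ≠ 0) (W m M : ℕ)
    (hW : ∀ t : ℝ, (K.filter fun i => x i + t * y i = 0).card ≤ W)
    (hbig : 2 * M + 2 * m + 4 * W + 2 ≤ K.card) :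
    ∃ (L : ℕ) (P N : ℕ → Finset ι),
      (∀ l ≤ L, H15.SVec w (P l : Set ι) (N l : Set ι) ∧ Disjoint (P l) (N l) ∧ P l ∪ N l = C ∧
        M ≤ (P l ∩ K).card ∧ M ≤ (N l ∩ K).card ∧
        (∀ i, i ∉ K → ((i ∈ P l ↔ 0 < x i) ∧ (i ∈ N l ↔ x i < 0)))) ∧
      (∀ l < L, (P (l+1) \ P l).card ≤ W ∧ (N (l+1) \ N l).card ≤ W) ∧
      m ≤ (P 0 ∩ N L).card + (N 0 ∩ P L).card := by
  obtain ⟨s, hNC, hmono, hstep, hA0, hAR⟩ := times hK hW
  have hmono' : Monotone s := monotone_nat_of_le_succ hmono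
  have hsum := start_cards hK (hNC 0) (hNC K.card) hA0 hAR (hmono' (Nat.zero_le _))
  obtain ⟨n0, hn0, hm1, hm2⟩ := divt (fun n => (NN x y (s n) ∩ K).card) W K.card K.card
    (fun n => by
      have h1 := NN_card (x := x) (y := y) (s := s (n+1)) hK (hNC n)
      have h2 := hstep n
      rw [DD_comm] at h2
      show (NN x y (s (n+1)) ∩ K).card ≤ (NN x y (s n) ∩ K).card + W
      omega)
    (fun n => by
      have h1 := NN_card (x := x) (y := y) (s := s n) hK (hNC (n+1))
      have h2 := hstep n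
      show (NN x y (s n) ∩ K).card ≤ (NN x y (s (n+1)) ∩ K).card + W
      omega) hsum
  have hm1' : K.card ≤ 2 * (NN x y (s n0) ∩ K).card + 2 * W := hm1
  have hm2' : 2 * (NN x y (s n0) ∩ K).card ≤ K.card + 2 * W := hm2
  have hpn := PN_card (hNC n0)
  have hA := AA_card hK (hmono' (Nat.zero_le n0)) (hNC n0) (hNC 0)
  have hB := AA_card hK (hmono' hn0) (hNC K.card) (hNC n0)
  rw [hA0, Finset.card_empty] at hA
  rw [hAR] at hB
  by_cases hdir : 2 * (AA x y K (s n0)).card ≤ K.card
  · refine core w hx hy hC hK hbig (fun l => s (n0 + l)) (fun l => hNC _)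
      (fun l => hstep (n0 + l)) ?_ ?_ ⟨K.card - n0, ?_⟩
    · show K.card ≤ 2 * (PP x y (s n0) ∩ K).card + 2 * W
      omega
    · show K.card ≤ 2 * (NN x y (s n0) ∩ K).card + 2 * W
      omega
    · show m ≤ (DD x y (s n0) (s (n0 + (K.card - n0)))).card
      rw [Nat.add_sub_cancel' hn0]
      omega
  · refine core w hx hy hC hK hbig (fun l => s (n0 - l)) (fun l => hNC _)
      (fun l => ?_) ?_ ?_ ⟨n0, ?_⟩
    · show (DD x y (s (n0 - l)) (s (n0 - (l+1)))).card ≤ W
      rcases Nat.lt_or_ge l n0 with h | h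
      · have h1 : n0 - l = (n0 - (l+1)) + 1 := by omega
        rw [h1, DD_comm]
        exact hstep _
      · have h1 : n0 - l = 0 := by omega
        have h2 : n0 - (l+1) = 0 := by omega
        rw [h1, h2]
        have h00 : DD x y (s 0) (s 0) = ∅ := by
          rw [DD_eq hK le_rfl (hNC 0) (hNC 0), Finset.sdiff_self]
        rw [h00]; simp
    · show K.card ≤ 2 * (PP x y (s n0) ∩ K).card + 2 * W
      omega
    · show K.card ≤ 2 * (NN x y (s n0) ∩ K).card + 2 * W
      omega
    · show m ≤ (DD x y (s (n0 - 0)) (s (n0 - n0))).card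
      rw [Nat.sub_self, Nat.sub_zero, DD_comm]
      omega

/-- the core, in terms of the times. -/
theorem core' (hK : ∀ i, i ∈ K ↔ y i ≠ 0) {W m M : ℕ}
    (hbig : 2 * M + 2 * m + 4 * W + 2 ≤ K.card) (u : ℕ → ℝ) (hu : ∀ l, NC x y K (u l))
    (hstep : ∀ l, (DD x y (u l) (u (l+1))).card ≤ W)
    (hmid1 : K.card ≤ 2 * (PP x y (u 0) ∩ K).card + 2 * W)
    (hmid2 : K.card ≤ 2 * (NN x y (u 0) ∩ K).card + 2 * W)
    (hfar : ∃ L, m ≤ (DD x y (u 0) (u L)).card) :
    ∃ (L : ℕ), (∀ l ≤ L, M ≤ (PP x y (u l) ∩ K).card ∧ M ≤ (NN x y (u l) ∩ K).card) ∧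
      m ≤ (DD x y (u 0) (u L)).card := by
  classical
  have hmin := Nat.find_spec hfar
  have hlt : ∀ l < Nat.find hfar, (DD x y (u 0) (u l)).card < m := by
    intro l hl
    exact not_le.1 (Nat.find_min hfar hl)
  set L := Nat.find hfar with hL
  have hle : ∀ l ≤ L, (DD x y (u 0) (u l)).card ≤ m + W := by
    intro l hl
    rcases Nat.lt_or_eq_of_le hl with h | h
    · exact (hlt l h).le.trans (Nat.le_add_right _ _)
    · rcases Nat.eq_zero_or_pos l with h0 | h0
      · have h00 : DD x y (u 0) (u 0) = ∅ := by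
          rw [DD_eq hK le_rfl (hu 0) (hu 0), Finset.sdiff_self]
        rw [h0, h00]
        simp
      · obtain ⟨l', rfl⟩ : ∃ l', l = l' + 1 := ⟨l - 1, by omega⟩
        have h1 := hlt l' (by omega)
        have h2 := hstep l'
        have h3 := DD_tri (x := x) (y := y) (a := u 0) (c := u (l'+1)) hK (hu l')
        omega
  refine ⟨L, ?_, hmin⟩
  intro l hl
  have h1 := hle l hl
  have h2 := PP_card (x := x) (y := y) (s := u 0) hK (hu l)
  have h3 := NN_card (x := x) (y := y) (s := u 0) hK (hu l)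
  exact ⟨by omega, by omega⟩

/-- the walk as a sequence of times. -/
theorem path_times (x y : ι → ℝ) (K : Finset ι) (hK : ∀ i, i ∈ K ↔ y i ≠ 0) (W m M : ℕ)
    (hW : ∀ t : ℝ, (K.filter fun i => x i + t * y i = 0).card ≤ W)
    (hbig : 2 * M + 2 * m + 4 * W + 2 ≤ K.card) :
    ∃ (L : ℕ) (u : ℕ → ℝ), (∀ l, NC x y K (u l)) ∧ (∀ l, (DD x y (u l) (u (l+1))).card ≤ W) ∧
      (∀ l ≤ L, M ≤ (PP x y (u l) ∩ K).card ∧ M ≤ (NN x y (u l) ∩ K).card) ∧
      m ≤ (DD x y (u 0) (u L)).card := by
  obtain ⟨s, hNC, hmono, hstep, hA0, hAR⟩ := times hK hW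
  have hmono' : Monotone s := monotone_nat_of_le_succ hmono
  have hsum := start_cards hK (hNC 0) (hNC K.card) hA0 hAR (hmono' (Nat.zero_le _))
  obtain ⟨n0, hn0, hm1, hm2⟩ := divt (fun n => (NN x y (s n) ∩ K).card) W K.card K.card
    (fun n => by
      have h1 := NN_card (x := x) (y := y) (s := s (n+1)) hK (hNC n)
      have h2 := hstep n
      rw [DD_comm] at h2
      show (NN x y (s (n+1)) ∩ K).card ≤ (NN x y (s n) ∩ K).card + W
      omega)
    (fun n => by
      have h1 := NN_card (x := x) (y := y) (s := s n) hK (hNC (n+1))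
      have h2 := hstep n
      show (NN x y (s n) ∩ K).card ≤ (NN x y (s (n+1)) ∩ K).card + W
      omega) hsum
  have hm1' : K.card ≤ 2 * (NN x y (s n0) ∩ K).card + 2 * W := hm1
  have hm2' : 2 * (NN x y (s n0) ∩ K).card ≤ K.card + 2 * W := hm2
  have hpn := PN_card (hNC n0)
  have hA := AA_card hK (hmono' (Nat.zero_le n0)) (hNC n0) (hNC 0)
  have hB := AA_card hK (hmono' hn0) (hNC K.card) (hNC n0)
  rw [hA0, Finset.card_empty] at hA
  rw [hAR] at hB
  by_cases hdir : 2 * (AA x y K (s n0)).card ≤ K.card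
  · obtain ⟨L, h1, h2⟩ := core' hK hbig (fun l => s (n0 + l)) (fun l => hNC _)
      (fun l => hstep (n0 + l)) (by
        show K.card ≤ 2 * (PP x y (s n0) ∩ K).card + 2 * W
        omega) (by
        show K.card ≤ 2 * (NN x y (s n0) ∩ K).card + 2 * W
        omega) ⟨K.card - n0, by
        show m ≤ (DD x y (s n0) (s (n0 + (K.card - n0)))).card
        rw [Nat.add_sub_cancel' hn0]
        omega⟩
    exact ⟨L, fun l => s (n0 + l), fun l => hNC _, fun l => hstep (n0 + l), h1, h2⟩
  · have hst : ∀ l, (DD x y (s (n0 - l)) (s (n0 - (l+1)))).card ≤ W := by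
      intro l
      rcases Nat.lt_or_ge l n0 with h | h
      · have h1 : n0 - l = (n0 - (l+1)) + 1 := by omega
        rw [h1, DD_comm]
        exact hstep _
      · have h1 : n0 - l = 0 := by omega
        have h2 : n0 - (l+1) = 0 := by omega
        rw [h1, h2]
        have h00 : DD x y (s 0) (s 0) = ∅ := by
          rw [DD_eq hK le_rfl (hNC 0) (hNC 0), Finset.sdiff_self]
        rw [h00]; simp
    obtain ⟨L, h1, h2⟩ := core' hK hbig (fun l => s (n0 - l)) (fun l => hNC _) hst (by
        show K.card ≤ 2 * (PP x y (s n0) ∩ K).card + 2 * W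
        omega) (by
        show K.card ≤ 2 * (NN x y (s n0) ∩ K).card + 2 * W
        omega) ⟨n0, by
        show m ≤ (DD x y (s (n0 - 0)) (s (n0 - n0))).card
        rw [Nat.sub_self, Nat.sub_zero, DD_comm]
        omega⟩
    exact ⟨L, fun l => s (n0 - l), fun l => hNC _, hst, h1, h2⟩

end H31.WKP
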